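import Pool.Agent.Helper34.R9.Sheet

/-! # Row SV1 of `Pool.Agent.Helper34.R9.Sheet` -/

set_option autoImplicit false

namespace Pool.Helper34.R9

open Pool.Helper17.R8 (ST_DDIV)
open Polynomial

namespace S44

theorem sq_dvd {q : ℕ} (hq : q.Prime) (h2 : ¬ (q : ℤ) ∣ 2) {u v : ℤ} (hu : ¬ (q : ℤ) ∣ u)
    (h : (q : ℤ) ^ 2 ∣ (u - v) * (u + v)) : (q : ℤ) ^ 2 ∣ u - v ∨ (q : ℤ) ^ 2 ∣ u + v := by
  have hp : Prime (q : ℤ) := Nat.prime_iff_prime_int.1 hq
  by_cases h1 : (q : ℤ) ∣ u + v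
  · right
    have h3 : ¬ (q : ℤ) ∣ u - v := by
      intro h4
      have h5 : (q : ℤ) ∣ 2 * u := by
        have := dvd_add h1 h4
        have e : u + v + (u - v) = 2 * u := by ring
        rwa [e] at this
      rcases hp.dvd_or_dvd h5 with h6 | h6
      · exact h2 h6
      · exact hu h6
    exact ((hp.coprime_iff_not_dvd.2 h3).pow_left (m := 2)).dvd_of_dvd_mul_left h
  · left
    exact ((hp.coprime_iff_not_dvd.2 h1).pow_left (m := 2)).dvd_of_dvd_mul_right h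

/-- the elements of one class modulo `Q` below `n` -/
theorem cls {n Q : ℕ} (F : Finset ℕ) (hF : ∀ b ∈ F, b < n) (k : ℕ)
    (h : (F.image (· % Q)).card ≤ k) : F.card ≤ k * (n / Q + 1) := by
  have h1 : F.card ≤ (n / Q + 1) * (F.image (· % Q)).card := by
    refine Finset.card_le_mul_card_image F _ fun a _ => ?_
    have h2 : (F.filter fun x => x % Q = a).card ≤ (Finset.range (n / Q + 1)).card := by
      refine Finset.card_le_card_of_injOn (fun x => x / Q) (fun x hx => ?_) fun x hx y hy hxy => ?_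
      · have hx' := Finset.mem_filter.1 hx
        have := Nat.div_le_div_right (c := Q) (hF x hx'.1).le
        simp only [Finset.coe_range, Set.mem_Iio]
        omega
      · have hx' := (Finset.mem_filter.1 hx).2
        have hy' := (Finset.mem_filter.1 hy).2
        have ex := Nat.div_add_mod x Q
        have ey := Nat.div_add_mod y Q
        have hxy' : x / Q = y / Q := hxy
        rw [hx', hxy'] at ex
        rw [hy'] at ey
        omega
    rwa [Finset.card_range] at h2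
  calc F.card ≤ (n / Q + 1) * (F.image (· % Q)).card := h1
    _ ≤ (n / Q + 1) * k := Nat.mul_le_mul_left _ h
    _ = k * (n / Q + 1) := Nat.mul_comm _ _

theorem modEq {q : ℕ} (hq : q.Prime) {M : ℤ} (hM : ¬ (q : ℤ) ∣ M) {x y : ℕ}
    (h : (q : ℤ) ^ 2 ∣ M * (x : ℤ) - M * (y : ℤ)) : x % q ^ 2 = y % q ^ 2 := by
  have hp : Prime (q : ℤ) := Nat.prime_iff_prime_int.1 hq
  rw [← mul_sub] at h
  have h1 : (q : ℤ) ^ 2 ∣ (x : ℤ) - (y : ℤ) :=
    ((hp.coprime_iff_not_dvd.2 hM).pow_left (m := 2)).dvd_of_dvd_mul_left h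
  have h2 : ((q ^ 2 : ℕ) : ℤ) ∣ (x : ℤ) - (y : ℤ) := by push_cast; exact h1
  exact ((Nat.modEq_iff_dvd.2 h2).symm : x ≡ y [MOD q ^ 2])

end S44

theorem st_SV1 (hD : ST_DDIV) : ST_SV1 := by
  classical
  intro P q n M κ zb E hq hdeg hlc hM hκ h2 F hF
  have hex : ∀ b : ℕ, ∃ t : ℤ, b ∈ F →
      κ * t = E - (zb + M * (b : ℤ)) ^ 2 ∧ (q : ℤ) ^ 6 ∣ P.eval t := fun b => by
    by_cases hb : b ∈ F
    · obtain ⟨t, ht⟩ := (hF b hb).2.2
      exact ⟨t, fun _ => ht⟩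
    · exact ⟨0, fun h => absurd h hb⟩
  choose τ hτ using hex
  have key : F.card ≤ (2 * (n / q ^ 2 + 1)) * (F.image fun b => τ b % ((q : ℤ) ^ 2)).card := by
    refine Finset.card_le_mul_card_image F _ fun a _ => ?_
    refine S44.cls _ (fun b hb => (hF b (Finset.mem_filter.1 hb).1).1) 2 ?_
    by_contra hc
    rw [not_le, Finset.two_lt_card] at hc
    obtain ⟨r1, m1, r2, m2, r3, m3, n12, n13, n23⟩ := hc
    obtain ⟨x, hx, rfl⟩ := Finset.mem_image.1 m1
    obtain ⟨y, hy, rfl⟩ := Finset.mem_image.1 m2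
    obtain ⟨z, hz, rfl⟩ := Finset.mem_image.1 m3
    obtain ⟨hxF, hxa⟩ := Finset.mem_filter.1 hx
    obtain ⟨hyF, hya⟩ := Finset.mem_filter.1 hy
    obtain ⟨hzF, hza⟩ := Finset.mem_filter.1 hz
    have step : ∀ w ∈ F, τ w % ((q : ℤ) ^ 2) = a → x % q ^ 2 ≠ w % q ^ 2 →
        (q : ℤ) ^ 2 ∣ (zb + M * (x : ℤ)) + (zb + M * (w : ℤ)) := by
      intro w hw hwa hne
      have d1 : (q : ℤ) ^ 2 ∣ τ w - τ x :=
        Int.ModEq.dvd (show τ x ≡ τ w [ZMOD (q : ℤ) ^ 2] from hxa.trans hwa.symm)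
      have e : ((zb + M * (x : ℤ)) - (zb + M * (w : ℤ))) *
          ((zb + M * (x : ℤ)) + (zb + M * (w : ℤ))) = κ * (τ w - τ x) := by
        have e1 := (hτ x hxF).1
        have e2 := (hτ w hw).1
        linear_combination e1 - e2
      have d2 : (q : ℤ) ^ 2 ∣ ((zb + M * (x : ℤ)) - (zb + M * (w : ℤ))) *
          ((zb + M * (x : ℤ)) + (zb + M * (w : ℤ))) := e ▸ dvd_mul_of_dvd_right d1 κ
      rcases S44.sq_dvd hq h2 (hF x hxF).2.1 d2 with h3 | h3
      · refine absurd (S44.modEq hq hM (x := x) (y := w) ?_) hne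
        have e3 : (zb + M * (x : ℤ)) - (zb + M * (w : ℤ)) = M * (x : ℤ) - M * (w : ℤ) := by ring
        rwa [e3] at h3
      · exact h3
    have hy3 := step y hyF hya n12
    have hz3 := step z hzF hza n13
    refine n23 (S44.modEq hq hM (x := y) (y := z) ?_)
    have := dvd_sub hy3 hz3
    have e : (zb + M * (x : ℤ)) + (zb + M * (y : ℤ)) - ((zb + M * (x : ℤ)) + (zb + M * (z : ℤ))) =
        M * (y : ℤ) - M * (z : ℤ) := by ring
    rwa [e] at this
  have h5 : (F.image fun b => τ b % ((q : ℤ) ^ 2)).card ≤ 5 := by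
    by_contra hc
    rw [not_le] at hc
    obtain ⟨G, hG, hGc⟩ := Finset.exists_subset_card_eq (Nat.succ_le_of_lt hc)
    have eq6 : Fintype.card (Fin 6) = Fintype.card G := by simp [hGc]
    let e6 := Fintype.equivOfCardEq eq6
    have hch : ∀ i : Fin 6, ∃ b ∈ F, τ b % ((q : ℤ) ^ 2) = (e6 i : ℤ) := fun i => by
      obtain ⟨b, hb, h⟩ := Finset.mem_image.1 (hG (e6 i).2)
      exact ⟨b, hb, h⟩
    choose β hβF hβ using hch
    obtain ⟨i, j, hij, hd⟩ := hD P q hq hdeg hlc (fun i => τ (β i)) (fun i => (hτ _ (hβF i)).2)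
    apply hij
    apply e6.injective
    apply Subtype.ext
    rw [← hβ i, ← hβ j]
    exact ((Int.modEq_iff_dvd.2 hd).symm : τ (β i) ≡ τ (β j) [ZMOD (q : ℤ) ^ 2])
  calc F.card ≤ (2 * (n / q ^ 2 + 1)) * (F.image fun b => τ b % ((q : ℤ) ^ 2)).card := key
    _ ≤ (2 * (n / q ^ 2 + 1)) * 5 := Nat.mul_le_mul_left _ h5
    _ = 10 * (n / q ^ 2 + 1) := by ring

end Pool.Helper34.R9
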