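import Pool.Agent.Helper34.R9.SheetB
import Pool.Agent.Helper89.R9.WIN

/-! # Row WINB of `Pool.Agent.Helper34.R9.SheetB` -/

set_option autoImplicit false

namespace Pool.Helper34.R9

open Pool.Helper17.R8 (ek ss fI fJ)

namespace S44

/-- the size of `z` -/
theorem z_bd (M m b : ℤ) (hM : 8 ≤ M) (hm : 1 ≤ m) (hb0 : 0 ≤ b) (hb : b ≤ m ^ 4) :
    m ^ 4 * M ≤ 1937 + M * m ^ 4 + M * b ∧ 0 ≤ 1937 + M * m ^ 4 + M * b ∧
      1937 + M * m ^ 4 + M * b ≤ (1937 + 2 * M) * m ^ 4 := by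
  have h1 : M * b ≤ M * m ^ 4 := mul_le_mul_of_nonneg_left hb (by linarith)
  have h0 : 0 ≤ M * b := mul_nonneg (by linarith) hb0
  have hm4 : (1 : ℤ) ≤ m ^ 4 := one_le_pow₀ hm
  have h2 : 0 ≤ M * m ^ 4 := mul_nonneg (by linarith) (by positivity)
  refine ⟨by linarith, by linarith, by nlinarith⟩

theorem core (C0 M m z E t : ℤ) (hC0 : 1 ≤ C0) (hM : 8 ≤ M) (hm : 1 ≤ m)
    (eb : |E| ≤ C0 * m ^ 6) (ht : 4 * t = E - z ^ 2) (z1 : m ^ 4 * M ≤ z) (z0 : 0 ≤ z)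
    (z2 : z ≤ (1937 + 2 * M) * m ^ 4) (hs : 2 * C0 < m ^ 2) :
    m ^ 8 ≤ |t| ∧ |t| ≤ (C0 + (1937 + 2 * M) ^ 2) * m ^ 8 := by
  obtain ⟨e1, e2⟩ := abs_le.1 eb
  have hm0 : 0 < m := by linarith
  have hm6 : (0 : ℤ) < m ^ 6 := by positivity
  have hm8 : (0 : ℤ) < m ^ 8 := by positivity
  have c1 : 2 * (C0 * m ^ 6) ≤ m ^ 8 := by
    have : m ^ 8 = m ^ 2 * m ^ 6 := by ring
    rw [this]
    nlinarith
  have c2 : C0 * m ^ 6 ≤ C0 * m ^ 8 := by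
    have : m ^ 6 ≤ m ^ 8 := pow_le_pow_right₀ hm (by norm_num)
    exact mul_le_mul_of_nonneg_left this (by linarith)
  have zz1 : 64 * m ^ 8 ≤ z ^ 2 := by
    have h8 : 8 * m ^ 4 ≤ z := by
      refine le_trans ?_ z1
      have : 0 ≤ m ^ 4 := by positivity
      nlinarith
    have := pow_le_pow_left₀ (by positivity) h8 2
    calc 64 * m ^ 8 = (8 * m ^ 4) ^ 2 := by ring
      _ ≤ _ := this
  have zz2 : z ^ 2 ≤ (1937 + 2 * M) ^ 2 * m ^ 8 := by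
    have := pow_le_pow_left₀ z0 z2 2
    calc z ^ 2 ≤ ((1937 + 2 * M) * m ^ 4) ^ 2 := this
      _ = (1937 + 2 * M) ^ 2 * m ^ 8 := by ring
  have hneg : t ≤ 0 := by linarith
  rw [abs_of_nonpos hneg, add_mul]
  have hp : 0 ≤ C0 * m ^ 8 := by positivity
  have hp2 : 0 ≤ (1937 + 2 * M) ^ 2 * m ^ 8 := by positivity
  exact ⟨by linarith, by linarith⟩

theorem MB_big : 8 ≤ MB := by
  have h : ((8 : ℕ) : ℤ) ∣ MB := dvd_MB 8 (by norm_num) (by unfold QB; norm_num)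
  exact_mod_cast Int.le_of_dvd MB_pos h

theorem fin1 (C0 K x y m : ℤ) (hC0 : 1 ≤ C0) (hK : 0 ≤ K) (a1 : |x| ≤ C0 * m ^ 2)
    (a2 : |y| ≤ C0 * m ^ 2) (hs : m ^ 2 ≤ 2 * C0) : |x - y| ≤ K + 4 * C0 * C0 + 1 := by
  have a3 : C0 * m ^ 2 ≤ C0 * (2 * C0) := mul_le_mul_of_nonneg_left hs (by linarith)
  have a4 := abs_sub x y
  nlinarith

theorem main (M : ℤ) (hM : 8 ≤ M) (C0 : ℤ) (hC0 : 1 ≤ C0) : ∃ K : ℤ, 1 ≤ K ∧
    ∀ (m b b' E E' t t' A B : ℤ) (e e' : ℕ → ℤ), 1 ≤ m → 0 ≤ b → b ≤ m ^ 4 → 0 ≤ b' →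
      b' ≤ m ^ 4 → |E| ≤ C0 * m ^ 6 → |E'| ≤ C0 * m ^ 6 →
      4 * t = E - (1937 + M * m ^ 4 + M * b) ^ 2 → 4 * t' = E' - (1937 + M * m ^ 4 + M * b') ^ 2 →
      (∀ k, k ≤ 8 → |e k| ≤ C0 * m ^ k) → (∀ k, k ≤ 8 → |e' k| ≤ C0 * m ^ k) →
      48 * A = -(fI e t) → 48 * A = -(fI e' t') → 1728 * B = -(fJ e t) → 1728 * B = -(fJ e' t') →
      |e 2 - e' 2| ≤ K := by
  obtain ⟨K, hK0, hwin⟩ := Pool.Helper89.R9.win (C0 + (1937 + 2 * M) ^ 2)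
    (by nlinarith [sq_nonneg (1937 + 2 * M)])
  refine ⟨K + 4 * C0 * C0 + 1, by nlinarith, ?_⟩
  intro m b b' E E' t t' A B e e' hm hb0 hb hb0' hb' hE hE' ht ht' he he' hA hA' hB hB'
  by_cases hs : m ^ 2 ≤ 2 * C0
  · exact fin1 C0 K (e 2) (e' 2) m hC0 hK0 (he 2 (by norm_num)) (he' 2 (by norm_num)) hs
  · rw [not_le] at hs
    obtain ⟨z1, z0, z2⟩ := z_bd M m b hM hm hb0 hb
    obtain ⟨z1', z0', z2'⟩ := z_bd M m b' hM hm hb0' hb'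
    obtain ⟨l1, u1⟩ := core C0 M m _ E t hC0 hM hm hE ht z1 z0 z2 hs
    obtain ⟨l2, u2⟩ := core C0 M m _ E' t' hC0 hM hm hE' ht' z1' z0' z2' hs
    have hle : ∀ k, C0 * m ^ k ≤ (C0 + (1937 + 2 * M) ^ 2) * m ^ k := fun k =>
      mul_le_mul_of_nonneg_right (by nlinarith [sq_nonneg (1937 + 2 * M)])
        (pow_nonneg (by linarith) k)
    have hfin := hwin m (m ^ 8) e e' t t' hm (pow_le_pow_right₀ hm (by norm_num))
      (fun k _ hk => (he k hk).trans (hle k)) (fun k _ hk => (he' k hk).trans (hle k)) l1 u1 u2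
      (by linarith) (by linarith)
    have h8 : (0 : ℤ) < m ^ 8 := pow_pos (by linarith) 8
    have := le_of_mul_le_mul_right hfin h8
    nlinarith

end S44

theorem st_WINB (hR : ST_RELB) (hB : ST_BNDB) : ST_WINB := by
  obtain ⟨C0, hC0, hBd⟩ := hB
  obtain ⟨K, hK, h⟩ := S44.main MB S44.MB_big C0 hC0
  refine ⟨K, hK, ?_⟩
  intro m hm T hT T' hT' hA hBB
  have g1 := hBd m hm T hT
  have g2 := hBd m hm T' hT'
  have r1 := hR m T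
  have r2 := hR m T'
  have hb : ∀ T ∈ BoxG 6 4 m, ((T.2 : ℕ) : ℤ) ≤ (m : ℤ) ^ 4 := by
    intro T hT
    have := Finset.mem_range.1 (Finset.mem_product.1 hT).2
    exact_mod_cast this.le
  have r1a := r1.2.2.2.1
  have r1b := r1.2.2.2.2.1
  have r2a := r2.2.2.2.1
  have r2b := r2.2.2.2.2.1
  rw [← hA] at r2a
  rw [← hBB] at r2b
  exact h (m : ℤ) (T.2 : ℤ) (T'.2 : ℤ) _ _ (tB m T) (tB m T') (aB m T) (bB m T) _ _
    (by exact_mod_cast hm) (Int.natCast_nonneg _) (hb T hT) (Int.natCast_nonneg _) (hb T' hT')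
    g1.2.1 g2.2.1 r1.2.1 r2.2.1 g1.1 g2.1 r1a r2a r1b r2b

end Pool.Helper34.R9
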